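import Pool.Agent.Lib.MP_fdb342_lc.Base

/-!
# The compositum of two finite Galois extensions of `2`-power degree
-/

open scoped Classical

namespace Pool.Agent.Lib.MP_fdb342_lc

/-- The compositum of two finite Galois extensions of `2`-power degree is again one. -/
theorem good_sup {K₁ K₂ : IntermediateField ℚ ℂ} (h₁ : Good K₁) (h₂ : Good K₂) :
    Good (K₁ ⊔ K₂) := by
  have hG₁ : IsGalois ℚ K₁ := h₁.1
  have hG₂ : IsGalois ℚ K₂ := h₂.1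
  have hF₁ := h₁.finiteDimensional
  have hF₂ := h₂.finiteDimensional
  obtain ⟨n₁, hn₁⟩ := h₁.2
  obtain ⟨n₂, hn₂⟩ := h₂.2
  have N₁ : @Normal ℚ K₁ _ _ (IntermediateField.algebra' K₁) := hG₁.to_normal
  have N₂ : @Normal ℚ K₂ _ _ (IntermediateField.algebra' K₂) := hG₂.to_normal
  have N : @Normal ℚ ↥(K₁ ⊔ K₂) _ _ (IntermediateField.algebra' _) :=
    @IntermediateField.normal_sup ℚ ℂ _ _ _ K₁ K₂ N₁ N₂
  have N' : Normal ℚ ↥(K₁ ⊔ K₂) := N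
  have F₁ : @FiniteDimensional ℚ K₁ _ _ (IntermediateField.algebra' K₁).toModule := hF₁
  have F₂ : @FiniteDimensional ℚ K₂ _ _ (IntermediateField.algebra' K₂).toModule := hF₂
  have F' : @FiniteDimensional ℚ ↥(K₁ ⊔ K₂) _ _ (IntermediateField.algebra' _).toModule :=
    @IntermediateField.finiteDimensional_sup ℚ ℂ _ _ _ K₁ K₂ F₁ F₂
  have F : FiniteDimensional ℚ ↥(K₁ ⊔ K₂) := F'
  have hG : IsGalois ℚ ↥(K₁ ⊔ K₂) := { to_normal := N' }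
  refine ⟨hG, ?_⟩
  let a₁ : Algebra K₁ ↥(K₁ ⊔ K₂) :=
    (IntermediateField.inclusion (le_sup_left : K₁ ≤ K₁ ⊔ K₂)).toAlgebra
  let a₂ : Algebra K₂ ↥(K₁ ⊔ K₂) :=
    (IntermediateField.inclusion (le_sup_right : K₂ ≤ K₁ ⊔ K₂)).toAlgebra
  have t₁ : IsScalarTower ℚ K₁ ↥(K₁ ⊔ K₂) := IsScalarTower.of_algebraMap_eq fun x => by
    rfl
  have t₂ : IsScalarTower ℚ K₂ ↥(K₁ ⊔ K₂) := IsScalarTower.of_algebraMap_eq fun x => by
    rfl
  let f : (↥(K₁ ⊔ K₂) ≃ₐ[ℚ] ↥(K₁ ⊔ K₂)) →* (K₁ ≃ₐ[ℚ] K₁) × (K₂ ≃ₐ[ℚ] K₂) :=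
    (AlgEquiv.restrictNormalHom K₁).prod (AlgEquiv.restrictNormalHom K₂)
  have hf : Function.Injective f := by
    rw [injective_iff_map_eq_one]
    intro σ hσ
    have e1 : AlgEquiv.restrictNormalHom K₁ σ = 1 := congrArg Prod.fst hσ
    have e2 : AlgEquiv.restrictNormalHom K₂ σ = 1 := congrArg Prod.snd hσ
    -- the elements of `ℂ` fixed by `σ`
    let S : IntermediateField ℚ ℂ :=
      { carrier := {z | ∃ h : z ∈ K₁ ⊔ K₂, σ ⟨z, h⟩ = ⟨z, h⟩}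
        mul_mem' := by
          rintro x y ⟨hx, ex⟩ ⟨hy, ey⟩
          refine ⟨mul_mem hx hy, ?_⟩
          have : (⟨x * y, mul_mem hx hy⟩ : ↥(K₁ ⊔ K₂)) = ⟨x, hx⟩ * ⟨y, hy⟩ := rfl
          rw [this, map_mul, ex, ey]
        add_mem' := by
          rintro x y ⟨hx, ex⟩ ⟨hy, ey⟩
          refine ⟨add_mem hx hy, ?_⟩
          have : (⟨x + y, add_mem hx hy⟩ : ↥(K₁ ⊔ K₂)) = ⟨x, hx⟩ + ⟨y, hy⟩ := rfl
          rw [this, map_add, ex, ey]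
        algebraMap_mem' := by
          intro r
          refine ⟨(K₁ ⊔ K₂).algebraMap_mem r, ?_⟩
          exact σ.commutes r
        inv_mem' := by
          rintro x ⟨hx, ex⟩
          refine ⟨inv_mem hx, ?_⟩
          have : (⟨x⁻¹, inv_mem hx⟩ : ↥(K₁ ⊔ K₂)) = (⟨x, hx⟩ : ↥(K₁ ⊔ K₂))⁻¹ := rfl
          rw [this, map_inv₀, ex] }
    have k1 : K₁ ≤ S := by
      intro z hz
      refine ⟨(le_sup_left : K₁ ≤ K₁ ⊔ K₂) hz, ?_⟩
      have h3 := AlgEquiv.restrictNormal_commutes σ K₁ ⟨z, hz⟩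
      have h4 : σ.restrictNormal K₁ ⟨z, hz⟩ = ⟨z, hz⟩ := DFunLike.congr_fun e1 (⟨z, hz⟩ : K₁)
      rw [h4] at h3
      exact h3.symm
    have k2 : K₂ ≤ S := by
      intro z hz
      refine ⟨(le_sup_right : K₂ ≤ K₁ ⊔ K₂) hz, ?_⟩
      have h3 := AlgEquiv.restrictNormal_commutes σ K₂ ⟨z, hz⟩
      have h4 : σ.restrictNormal K₂ ⟨z, hz⟩ = ⟨z, hz⟩ := DFunLike.congr_fun e2 (⟨z, hz⟩ : K₂)
      rw [h4] at h3
      exact h3.symm
    apply AlgEquiv.ext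
    rintro ⟨z, hz⟩
    obtain ⟨h5, h6⟩ := (sup_le k1 k2) hz
    exact h6
  have hd := Subgroup.card_dvd_of_injective f hf
  rw [Nat.card_prod, IsGalois.card_aut_eq_finrank, IsGalois.card_aut_eq_finrank,
    IsGalois.card_aut_eq_finrank, hn₁, hn₂, ← pow_add] at hd
  obtain ⟨n, -, hn⟩ := (Nat.dvd_prime_pow Nat.prime_two).1 hd
  exact ⟨n, hn⟩

end Pool.Agent.Lib.MP_fdb342_lc
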