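import Mathlib

/-!
# Constructible numbers

`IsConstructible z`: `z` lies in a finite Galois extension `K ⊂ ℂ` of `ℚ` of `2`-power degree.
-/

open scoped Classical

namespace Pool.Agent.Lib.MP_fdb342_lc

/-- `K / ℚ` is a finite Galois extension of degree a power of two. -/
def Good (K : IntermediateField ℚ ℂ) : Prop :=
  IsGalois ℚ K ∧ ∃ n : ℕ, Module.finrank ℚ K = 2 ^ n

/-- `z` lies in a finite Galois extension of `ℚ` of degree a power of two. -/
def IsConstructible (z : ℂ) : Prop :=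
  ∃ K : IntermediateField ℚ ℂ, IsGalois ℚ K ∧ (∃ n : ℕ, Module.finrank ℚ K = 2 ^ n) ∧ z ∈ K

lemma Good.finiteDimensional {K : IntermediateField ℚ ℂ} (h : Good K) :
    FiniteDimensional ℚ K := by
  obtain ⟨n, hn⟩ := h.2
  apply Module.finite_of_finrank_pos
  rw [hn]
  positivity

lemma Good.isConstructible {K : IntermediateField ℚ ℂ} (h : Good K) {z : ℂ} (hz : z ∈ K) :
    IsConstructible z := ⟨K, h.1, h.2, hz⟩

lemma IsConstructible.exists_good {z : ℂ} (h : IsConstructible z) :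
    ∃ K : IntermediateField ℚ ℂ, Good K ∧ z ∈ K := by
  obtain ⟨K, h1, h2, h3⟩ := h
  exact ⟨K, ⟨h1, h2⟩, h3⟩

lemma good_bot : Good (⊥ : IntermediateField ℚ ℂ) :=
  ⟨(isGalois_bot : IsGalois ℚ (⊥ : IntermediateField ℚ ℂ)), 0, by simp⟩

end Pool.Agent.Lib.MP_fdb342_lc
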