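import Mathlib

/-!
# Gödel numbers of formulas of the language of rings
-/

open FirstOrder FirstOrder.Language FirstOrder.Ring

namespace Pool.Agent.Lib.MP_fdb342_lc

/-- The Gödel number of a function symbol applied to terms with Gödel numbers `c i`. -/
def funcCode : ∀ {l : ℕ}, ringFunc l → (Fin l → ℕ) → ℕ
  | _, .zero, _ => 1
  | _, .one, _ => 2
  | _, .neg, c => 6 * c 0 + 3
  | _, .add, c => 6 * Nat.pair (c 0) (c 1) + 4
  | _, .mul, c => 6 * Nat.pair (c 0) (c 1) + 5

/-- The Gödel number of a term in the variables `x₀, …, x_{n-1}`. -/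
def termCode {n : ℕ} : Language.ring.Term (Empty ⊕ Fin n) → ℕ
  | .var (.inl e) => e.elim
  | .var (.inr i) => 6 * (i : ℕ)
  | @Term.func _ _ _ f ts => funcCode (f : ringFunc _) fun i => termCode (ts i)

/-- The Gödel number of a formula with free variables among `x₀, …, x_{n-1}`; `∀` binds the
variable `x_n`. -/
def formulaCode : ∀ {n : ℕ}, Language.ring.BoundedFormula Empty n → ℕ
  | _, .falsum => 0
  | _, .equal t₁ t₂ => 3 * Nat.pair (termCode t₁) (termCode t₂) + 1
  | _, .rel R _ => (R : Empty).elim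
  | _, .imp φ ψ => 3 * Nat.pair (formulaCode φ) (formulaCode ψ) + 2
  | _, .all φ => 3 * formulaCode φ + 3

end Pool.Agent.Lib.MP_fdb342_lc
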