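import Pool.Agent.Lib.MP_fdb342_lc.A0

/-!
# The field of constructible numbers
-/

namespace Pool.Agent.Lib.MP_fdb342_lc

/-- **Constructible numbers.** The field of all complex numbers lying in a finite Galois extension
of `ℚ` of degree a power of two. -/
def Omega : Subfield ℂ where
  carrier := {z | IsConstructible z}
  mul_mem' := by
    intro a b ha hb
    obtain ⟨K₁, h₁, ha⟩ := IsConstructible.exists_good ha
    obtain ⟨K₂, h₂, hb⟩ := IsConstructible.exists_good hb
    exact (good_sup h₁ h₂).isConstructible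
      (mul_mem ((le_sup_left : K₁ ≤ K₁ ⊔ K₂) ha) ((le_sup_right : K₂ ≤ K₁ ⊔ K₂) hb))
  one_mem' := good_bot.isConstructible (one_mem _)
  add_mem' := by
    intro a b ha hb
    obtain ⟨K₁, h₁, ha⟩ := IsConstructible.exists_good ha
    obtain ⟨K₂, h₂, hb⟩ := IsConstructible.exists_good hb
    exact (good_sup h₁ h₂).isConstructible
      (add_mem ((le_sup_left : K₁ ≤ K₁ ⊔ K₂) ha) ((le_sup_right : K₂ ≤ K₁ ⊔ K₂) hb))
  zero_mem' := good_bot.isConstructible (zero_mem _)
  neg_mem' := by
    intro a ha
    obtain ⟨K₁, h₁, ha⟩ := IsConstructible.exists_good ha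
    exact h₁.isConstructible (neg_mem ha)
  inv_mem' := by
    intro a ha
    obtain ⟨K₁, h₁, ha⟩ := IsConstructible.exists_good ha
    exact h₁.isConstructible (inv_mem ha)

end Pool.Agent.Lib.MP_fdb342_lc
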