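import Pool.Agent.Lib.MP_fdb342_lc.Mg.G004
import Pool.Agent.Lib.MP_fdb342_lc.Mg.G007
import Pool.Agent.Lib.MP_fdb342_lc.Mg.G008
import Pool.Agent.Lib.MP_fdb342_lc.Mg.G009
import Pool.Agent.Lib.MP_fdb342_lc.Mg.G001

/-!
# The theory of the field of constructible numbers is undecidable
-/

open FirstOrder FirstOrder.Language FirstOrder.Ring

namespace Pool.Agent.Lib.MP_fdb342_lc

theorem ctx_omega [CompatibleRing Omega] : Ctx Omega.subtype 3 := by
  refine ⟨Subtype.val_injective, ?_, fun x hx => ⟨⟨x, hx.1⟩, rfl⟩⟩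
  have h := dfn_QQ Omega.subtype Subtype.val_injective
    (fun x => ⟨fun hx => ⟨⟨x, hx⟩, rfl⟩, fun ⟨y, hy⟩ => hy ▸ y.2⟩)
  intro n f hf
  exact (h n f hf).congr fun v => ⟨QQ_of_mem_RR, mem_RR_of_QQ⟩

/-- **Main theorem.** -/
theorem omega_undecidable [CompatibleRing Omega] : ¬ DecidableTheory Omega :=
  not_decidable (Or.inr rfl) ctx_omega

theorem ctx_ring (D : ℕ) [CompatibleRing (RR D)] : Ctx (RR D).subtype D := by
  refine ⟨Subtype.val_injective, ?_, fun x hx => ⟨⟨x, hx⟩, rfl⟩⟩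
  rintro n f ⟨t, ht⟩
  refine ⟨⊤, fun v => ?_⟩
  simp only [Formula.realize_top, true_iff]
  rw [← ht]
  exact (t.realize v).2

theorem ring_undecidable {D : ℕ} (hD : D = 1 ∨ D = 3) [CompatibleRing (RR D)] :
    ¬ DecidableTheory (RR D) :=
  not_decidable hD (ctx_ring D)

end Pool.Agent.Lib.MP_fdb342_lc
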