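import Mathlib

/-!
# Truth of a sentence of the language of rings in a ring
-/

open FirstOrder FirstOrder.Language FirstOrder.Ring

namespace Pool.Agent.Lib.MP_fdb342_lc

/-- The sentence `φ` of the language of rings is true in the ring `M`. -/
def TrueIn (M : Type) [CommRing M] (φ : Language.ring.Sentence) : Prop :=
  letI := compatibleRingOfRing M
  M ⊨ φ

/-- A sanity check: truth of the sentence `∀ x ∃ y, y * y = x`. -/
theorem trueIn_sqrt (M : Type) [CommRing M] :
    TrueIn M (∀' ∃' (((&1 : Language.ring.Term (Empty ⊕ Fin 2)) * &1) =' &0)) ↔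
      ∀ x : M, ∃ y : M, y * y = x := by
  let _ := compatibleRingOfRing M
  simp [TrueIn, Sentence.Realize, Formula.Realize, BoundedFormula.realize_all,
    BoundedFormula.realize_ex, BoundedFormula.realize_bdEqual, Fin.snoc]

end Pool.Agent.Lib.MP_fdb342_lc
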